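import Pool.Agent.Helper49.KR.St

/-!
# Project KR, module ASR: assembly
-/

set_option autoImplicit false

namespace Pool.Agent.Helper3.KR

open Finset Filter Topology Module
open Pool.Agent.Helper49.KX Pool.Agent.Helper49.KR

/-- the families agree on the bases -/
theorem asr_be (hEvm : StEvm) (hBbm : StBbm) (θ δ1 δ2 ε : ℝ) (q1 q2 : ℕ) (he : 0 < ε) (h1 : 4 * ε < δ1)
    (h2 : 4 * ε < δ2) (hT : Tow (hD (rot θ)) 3 (Yb δ1 δ2 ε) (rb q1 q2)) (A : Type) [Ring A] [Algebra ℂ A]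
    (j : C(Dx X0, ℂ) →ₐ[ℂ] A) (U : Aˣ) (hc : Cov (hD (rot θ)) j U)
    (M0 M0' : ℝ → Matrix (Fin q1) (Fin q1) ℂ) (M1 M1' : ℝ → Matrix (Fin q2) (Fin q2) ℂ)
    (M2 M2' : ℝ → Matrix (Fin (q1 + q2)) (Fin (q1 + q2)) ℂ)
    (e0 : ∀ s, 0 ≤ s → s ≤ δ2 → M0 s = M0' s) (e1 : ∀ s, -δ1 ≤ s → s ≤ 0 → M1 s = M1' s)
    (e2 : ∀ s, -ε ≤ s → s ≤ ε → M2 s = M2' s) :
    be θ δ1 δ2 ε M0 M1 M2 = be θ δ1 δ2 ε M0' M1' M2' := by
  unfold be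
  refine (hBbm hEvm (Dx X0) (hD (rot θ)) A j U hc 3 (Yb δ1 δ2 ε) (rb q1 q2) hT).2.2.2 _ _ ?_
  intro v x hx
  match v, hx with
  | 0, hx =>
    intro i k
    obtain ⟨a1, a2⟩ : ε ≤ rp δ1 x ∧ rp δ1 x < δ2 - ε := hx
    change M0 (rp δ1 x) i k = M0' (rp δ1 x) i k
    rw [e0 _ (by linarith) (by linarith)]
  | 1, hx =>
    intro i k
    obtain ⟨a1, a2⟩ : -δ1 + ε ≤ rp δ1 x ∧ rp δ1 x < -ε := hx
    change M1 (rp δ1 x) i k = M1' (rp δ1 x) i k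
    rw [e1 _ (by linarith) (by linarith)]
  | 2, hx =>
    intro i k
    obtain ⟨a1, a2⟩ : -ε ≤ rp δ1 x ∧ rp δ1 x < ε := hx
    change M2 (rp δ1 x) i k = M2' (rp δ1 x) i k
    rw [e2 _ (by linarith) (by linarith)]

/-- the algebra of finite sums inside the discrete algebra -/
theorem asr_hom (hEvm : StEvm) (hEmb : StEmb) (X : Type) [TopologicalSpace X] (h : X ≃ₜ X) (A B : Type) [Ring A]
    [Algebra ℂ A] [Ring B] [Algebra ℂ B] (j : C(X, ℂ) →ₐ[ℂ] A) (U : Aˣ) (hc : Cov h j U)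
    (hb : Function.Bijective (ev j U)) (jD : C(Dx X, ℂ) →ₐ[ℂ] B) (UD : Bˣ) (hcD : Cov (hD h) jD UD)
    (hbD : Function.Bijective (ev jD UD)) :
    ∃ Ψ : A →+* B, Function.Injective Ψ ∧ ∀ a : FS X, Ψ (ev j U a) = ev jD UD (embF a) := by
  obtain ⟨-, a1, a2, a3, a4⟩ := hEvm X h A j U hc
  obtain ⟨-, b1, b2, b3, b4⟩ := hEvm (Dx X) (hD h) B jD UD hcD
  obtain ⟨c1, c2, c3, c4, c5, -, -⟩ := hEmb X h
  let e := Equiv.ofBijective (ev j U) hb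
  have he : ∀ a, e a = ev j U a := fun _ => rfl
  have hes : ∀ x, ev j U (e.symm x) = x := fun x => e.apply_symm_apply x
  have hse : ∀ a, e.symm (ev j U a) = a := fun a => e.symm_apply_apply a
  let f : A →* B :=
    { toFun := fun x => ev jD UD (embF (e.symm x))
      map_one' := by
        have h0 : e.symm (1 : A) = un := by
          apply hb.1
          rw [hes, a3]
        rw [h0, c4, b3]
      map_mul' := by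
        intro x y
        have h0 : e.symm (x * y) = tw h (e.symm x) (e.symm y) := by
          apply hb.1
          rw [hes, a4, hes, hes]
        change ev jD UD (embF (e.symm (x * y))) = _
        rw [h0, c5, b4] }
  refine ⟨RingHom.mk' f ?_, ?_, ?_⟩
  · intro x y
    have h0 : e.symm (x + y) = e.symm x + e.symm y := by
      apply hb.1
      rw [hes, a1, hes, hes]
    change ev jD UD (embF (e.symm (x + y))) = ev jD UD (embF (e.symm x)) + ev jD UD (embF (e.symm y))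
    rw [h0, c2, b1]
  · intro x y hxy
    change ev jD UD (embF (e.symm x)) = ev jD UD (embF (e.symm y)) at hxy
    exact e.symm.injective (c1 (hbD.1 hxy))
  · intro a
    change ev jD UD (embF (e.symm (ev j U a))) = _
    rw [hse]

/-- the algebraic part -/
theorem asr_alg (hAbs : StAbs) (hWmt : StWmt) (q1 q2 : ℕ) (A : Type) [Ring A] (x s y : A) (κ0 : Fin q1 → Fin 4)
    (κ1 : Fin q2 → Fin 4) (σ0 : Equiv.Perm (Fin q1)) (σ1 : Equiv.Perm (Fin q2)) (i0 : IV q1 κ0 σ0) (i1 : IV q2 κ1 σ1)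
    (L Lu : Matrix (Fin q1) (Fin q1) ℂ → Matrix (Fin q2) (Fin q2) ℂ → A) (hy : y = x * (1 - x) * s)
    (l1 : L 1 1 = 1) (l2 : ∀ Z0 Z1 Z0' Z1', L (Z0 + Z0') (Z1 + Z1') = L Z0 Z1 + L Z0' Z1')
    (l3 : ∀ Z0 Z1 Z0' Z1', L (Z0 * Z0') (Z1 * Z1') = L Z0 Z1 * L Z0' Z1')
    (l4 : x * Lu (dg κ0 0) (dg κ1 0) = L (dg κ0 0) (dg κ1 0))
    (l5 : (1 - x) * Lu (dg κ0 1) (dg κ1 1) = L (dg κ0 1) (dg κ1 1))
    (l6 : y * Lu (dg κ0 2) (dg κ1 2) = L (dg κ0 2) (dg κ1 2)) : Suit x := by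
  obtain ⟨w1, w2, -⟩ := hWmt
  obtain ⟨v1, v2, v3, v4, v5, v6⟩ := w1 q1 κ0 σ0 i0
  obtain ⟨v1', v2', v3', v4', v5', v6'⟩ := w1 q2 κ1 σ1 i1
  obtain ⟨d1, d2⟩ := w2 q1 κ0
  obtain ⟨d1', d2'⟩ := w2 q2 κ1
  have l0 : L 0 0 = 0 := by
    have := l2 0 0 0 0
    rw [add_zero, add_zero] at this
    exact left_eq_add.1 this
  have hdd : ∀ t, L (dg κ0 t) (dg κ1 t) * L (dg κ0 t) (dg κ1 t) = L (dg κ0 t) (dg κ1 t) := by
    intro t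
    rw [← l3, d2, d2', if_pos rfl, if_pos rfl]
  have hdt : ∀ t t' : Fin 4, t ≠ t' → L (dg κ0 t) (dg κ1 t) * L (dg κ0 t') (dg κ1 t') = 0 := by
    intro t t' ht
    rw [← l3, d2, d2', if_neg ht, if_neg ht, l0]
  refine hAbs A x (L (dg κ0 0) (dg κ1 0)) (L (dg κ0 1) (dg κ1 1)) (L (dg κ0 2) (dg κ1 2)) (L (dg κ0 3) (dg κ1 3))
    (L (wm κ0 σ0) (wm κ1 σ1)) (L (wm κ0 σ0).transpose (wm κ1 σ1).transpose) (Lu (dg κ0 0) (dg κ1 0))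
    (Lu (dg κ0 1) (dg κ1 1)) ((1 - x) * s * Lu (dg κ0 2) (dg κ1 2)) (x * s * Lu (dg κ0 2) (dg κ1 2)) ?_
    (hdd 0) (hdd 1) (hdd 2) (hdd 3) (hdt _ _ (by decide)) (hdt _ _ (by decide)) (hdt _ _ (by decide))
    (hdt _ _ (by decide)) (hdt _ _ (by decide)) (hdt _ _ (by decide)) (hdt _ _ (by decide)) (hdt _ _ (by decide))
    (hdt _ _ (by decide)) (hdt _ _ (by decide)) (hdt _ _ (by decide)) (hdt _ _ (by decide)) ?_ ?_ ?_ ?_ ?_ ?_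
    l4.symm l5.symm ?_ ?_
  · rw [← l2, ← l2, ← l2, d1, d1', l1]
  · rw [← l3, v1, v1']
  · rw [← l3, v2, v2']
  · rw [← l3, v3, v3']
  · rw [← l3, v4, v4']
  · rw [← l3, v5, v5']
  · rw [← l3, v6, v6']
  · rw [← l6, hy]
    noncomm_ring
  · rw [← l6, hy]
    noncomm_ring

theorem hASR : StAsr := by
  intro hEvm hAlg hEmb hBbm hAbs hAdm hPrt hRel hBlk hBlc hBsm hWmt hBba θ δ1 δ2 ε q1 q2 N N' g s0 κ0 κ1 σ0 σ1 u0 u1 u2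
    hR he h1 h2 hg hy hdat hT
  obtain ⟨A, iA1, iA2, j, U, hc, hb⟩ := hAlg hEvm X0 (rot θ)
  obtain ⟨B, iB1, iB2, jD, UD, hcD, hbD⟩ := hAlg hEvm (Dx X0) (hD (rot θ))
  obtain ⟨Ψ, hinj, hΨ⟩ := asr_hom hEvm hEmb X0 (rot θ) A B j U hc hb jD UD hcD hbD
  obtain ⟨-, a1, a2, a3, a4⟩ := hEvm X0 (rot θ) A j U hc
  obtain ⟨L, Lu, hL, hLu, r1, r2, r3, r4, r5, r6⟩ := hRel hEvm hBbm hBba hEmb hBsm hWmt θ δ1 δ2 ε q1 q2 N N' g
    (yy θ g s0) κ0 κ1 σ0 σ1 u0 u1 u2 hR he h1 h2 hg hy hdat hT B jD UD hcD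
  have hP := hPrt hBlk hBlc hBsm θ δ1 δ2 ε q1 q2 N N' g (yy θ g s0) κ0 κ1 σ0 σ1 u0 u1 u2 hR he h1 h2 hg hy hdat
  have hLA : ∀ Z0 Z1, ∃ z : A, Ψ z = L Z0 Z1 := by
    intro Z0 Z1
    obtain ⟨⟨M0, M1, M2, hM, m0, m1, m2⟩, -⟩ := hP Z0 Z1
    obtain ⟨g', hg'⟩ := hAdm θ δ1 δ2 ε q1 q2 hR he h1 h2 M0 M1 M2 hM
    refine ⟨ev j U g', ?_⟩
    rw [hΨ, hg', hL, asr_be hEvm hBbm θ δ1 δ2 ε q1 q2 he h1 h2 hT B jD UD hcD M0 _ M1 _ M2 _ m0 m1 m2]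
  have hLuA : ∀ Z0 Z1, ∃ z : A, Ψ z = Lu Z0 Z1 := by
    intro Z0 Z1
    obtain ⟨-, ⟨M0, M1, M2, hM, m0, m1, m2⟩⟩ := hP Z0 Z1
    obtain ⟨g', hg'⟩ := hAdm θ δ1 δ2 ε q1 q2 hR he h1 h2 M0 M1 M2 hM
    refine ⟨ev j U g', ?_⟩
    rw [hΨ, hg', hLu, asr_be hEvm hBbm θ δ1 δ2 ε q1 q2 he h1 h2 hT B jD UD hcD M0 _ M1 _ M2 _ m0 m1 m2]
  choose L' hL' using hLA
  choose Lu' hLu' using hLuA
  have hyA : ev j U (yy θ g s0) = ev j U g * (1 - ev j U g) * ev j U s0 := by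
    unfold yy
    rw [a4, a4, a2, a3]
  have hS : Suit (ev j U g) := by
    refine asr_alg hAbs hWmt q1 q2 A (ev j U g) (ev j U s0) (ev j U (yy θ g s0)) κ0 κ1 σ0 σ1 hdat.i0 hdat.i1 L' Lu' hyA
      ?_ ?_ ?_ ?_ ?_ ?_
    · apply hinj
      rw [hL', r1, map_one]
    · intro Z0 Z1 Z0' Z1'
      apply hinj
      rw [hL', r2, map_add, hL', hL']
    · intro Z0 Z1 Z0' Z1'
      apply hinj
      rw [hL', r3, map_mul, hL', hL']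
    · apply hinj
      rw [map_mul, hLu', hL', hΨ, r4]
    · apply hinj
      rw [map_mul, hLu', hL', map_sub, map_one, hΨ, r5]
    · apply hinj
      rw [map_mul, hLu', hL', hΨ, r6]
  obtain ⟨y, z, hy1, hz1⟩ := hS
  obtain ⟨y', rfl⟩ := hb.2 y
  obtain ⟨z', rfl⟩ := hb.2 z
  refine ⟨y', z', ?_, ?_⟩
  · apply hb.1
    rw [a4, a4, hy1]
  · apply hb.1
    rw [a2, a3, a4, a4, a2, a3, hz1]

end Pool.Agent.Helper3.KR
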