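import Pool.Agent.Helper49.KR.St

/-!
# Project KR, module TWR: three towers
-/

set_option autoImplicit false

namespace Pool.Agent.Helper3.KR

open Finset Filter Topology Module
open Pool.Agent.Helper49.KX Pool.Agent.Helper49.KR

theorem twr_hD_zpow {X : Type} [TopologicalSpace X] (h : X ≃ₜ X) (n : ℤ) (x : X) :
    (hD h ^ n : Dx X ≃ₜ Dx X) x = (h ^ n : X ≃ₜ X) x := by
  induction n generalizing x with
  | zero => rfl
  | succ n ih =>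
    rw [zpow_add_one, zpow_add_one]
    change (hD h ^ (n : ℤ)) (hD h x) = (h ^ (n : ℤ)) (h x)
    exact ih (h x)
  | pred n ih =>
    rw [zpow_sub_one, zpow_sub_one]
    change (hD h ^ (-(n : ℤ))) ((hD h)⁻¹ x) = (h ^ (-(n : ℤ))) (h⁻¹ x)
    exact ih (h⁻¹ x)

theorem twr_coe_eq (a b : ℝ) : (a : X0) = b ↔ ∃ n : ℤ, a = b + n := by
  constructor
  · intro h
    have h1 : ((a - b : ℝ) : X0) = 0 := by
      rw [AddCircle.coe_sub, h, sub_self]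
    rw [AddCircle.coe_eq_zero_iff] at h1
    obtain ⟨n, hn⟩ := h1
    refine ⟨n, ?_⟩
    rw [zsmul_eq_mul, mul_one] at hn
    linarith
  · rintro ⟨n, rfl⟩
    rw [AddCircle.coe_add]
    have : ((n : ℝ) : X0) = 0 := by
      rw [AddCircle.coe_eq_zero_iff]
      exact ⟨n, by rw [zsmul_eq_mul, mul_one]⟩
    rw [this, add_zero]

theorem twr_rp_eq (δ1 s : ℝ) (h1 : -δ1 ≤ s) (h2 : s < 1 - δ1) : rp δ1 (s : X0) = s := by
  unfold rp
  exact AddCircle.equivIco_coe_of_mem ⟨h1, by linarith⟩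

/-- `x` is the class of `s + i θ` -/
def TL (θ : ℝ) (x : X0) (i : ℕ) (s : ℝ) : Prop := x = ((s + (i : ℝ) * θ : ℝ) : X0)

theorem twr_mem (θ δ1 δ2 ε : ℝ) (v : Fin 3) (i : ℕ) (x : X0) :
    (hD (rot θ) ^ (-(i : ℤ)) : Dx X0 ≃ₜ Dx X0) x ∈ Yb δ1 δ2 ε v ↔
      rp δ1 (x + ((-(i : ℝ) * θ : ℝ) : X0)) ∈ bs δ1 δ2 ε v := by
  have e : (hD (rot θ) ^ (-(i : ℤ)) : Dx X0 ≃ₜ Dx X0) x = (x + ((-(i : ℝ) * θ : ℝ) : X0) : X0) := by
    rw [twr_hD_zpow]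
    have e1 := rot_zpow θ (-(i : ℤ)) x
    rw [e1]
    push_cast
    rfl
  have e2 : rp δ1 ((hD (rot θ) ^ (-(i : ℤ)) : Dx X0 ≃ₜ Dx X0) x) = rp δ1 (x + ((-(i : ℝ) * θ : ℝ) : X0)) :=
    congrArg (rp δ1) e
  change rp δ1 ((hD (rot θ) ^ (-(i : ℤ)) : Dx X0 ≃ₜ Dx X0) x) ∈ bs δ1 δ2 ε v ↔ _
  rw [e2]

theorem twr_to (θ δ1 : ℝ) (i : ℕ) (x : X0) :
    ∃ s, rp δ1 ((x : X0) + ((-(i : ℝ) * θ : ℝ) : X0)) = s ∧ TL θ x i s := by
  refine ⟨_, rfl, ?_⟩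
  unfold TL
  rw [AddCircle.coe_add]
  unfold rp
  rw [AddCircle.coe_equivIco, add_assoc, ← AddCircle.coe_add]
  have : (-(i : ℝ) * θ + (i : ℝ) * θ) = 0 := by ring
  rw [this]
  simp

theorem twr_of (θ δ1 s : ℝ) (i : ℕ) (x : X0) (h1 : -δ1 ≤ s) (h2 : s < 1 - δ1) (h : TL θ x i s) :
    rp δ1 ((x : X0) + ((-(i : ℝ) * θ : ℝ) : X0)) = s := by
  unfold TL at h
  rw [h, ← AddCircle.coe_add]
  have : s + (i : ℝ) * θ + -(i : ℝ) * θ = s := by ring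
  rw [this]
  exact twr_rp_eq δ1 s h1 h2

theorem twr_shift (θ d : ℝ) (q : ℕ) (hq : ∃ n : ℤ, (q : ℝ) * θ = d + n) (x : X0) (i : ℕ) (s : ℝ) :
    TL θ x (i + q) s ↔ TL θ x i (s + d) := by
  obtain ⟨n, hn⟩ := hq
  unfold TL
  have : ((s + ((i + q : ℕ) : ℝ) * θ : ℝ) : X0) = ((s + d + (i : ℝ) * θ : ℝ) : X0) := by
    rw [twr_coe_eq]
    refine ⟨n, ?_⟩
    push_cast
    linarith [hn, add_mul (i : ℝ) (q : ℝ) θ]
  rw [this]

theorem twr_inj (θ δ1 δ2 : ℝ) (q1 q2 : ℕ) (hR : Rot θ δ1 δ2 q1 q2) (x : X0) (i j : ℕ) (s t : ℝ)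
    (hs : TL θ x i s) (ht : TL θ x j t) (hs1 : -δ1 ≤ s) (hs2 : s < δ2) (ht1 : -δ1 ≤ t) (ht2 : t < δ2)
    (hj1 : 0 ≤ t → j < q1) (hj2 : t < 0 → j < q2) (hij : i < j) : False := by
  unfold TL at hs ht
  rw [hs, twr_coe_eq] at ht
  obtain ⟨n, hn⟩ := ht
  have hk : ((j - i : ℕ) : ℝ) = (j : ℝ) - (i : ℝ) := by
    rw [Nat.cast_sub hij.le]
  have e : s = t + ((j - i : ℕ) : ℝ) * θ + n := by
    rw [hk]
    linarith [sub_mul (j : ℝ) (i : ℝ) θ]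
  rcases le_or_gt 0 t with h0 | h0
  · refine hR.ret1 t h0 ht2 (j - i) (by omega) ?_ n ?_
    · have := hj1 h0
      omega
    · rw [← e]
      exact ⟨hs1, hs2⟩
  · refine hR.ret2 t ht1 h0 (j - i) (by omega) ?_ n ?_
    · have := hj2 h0
      omega
    · rw [← e]
      exact ⟨hs1, hs2⟩

theorem twr_eq (θ δ1 δ2 : ℝ) (hl : δ1 + δ2 < 1) (x : X0) (i : ℕ) (s t : ℝ)
    (hs : TL θ x i s) (ht : TL θ x i t) (hs1 : -δ1 ≤ s) (hs2 : s < δ2) (ht1 : -δ1 ≤ t) (ht2 : t < δ2) : s = t := by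
  unfold TL at hs ht
  rw [hs, twr_coe_eq] at ht
  obtain ⟨n, hn⟩ := ht
  have e : s = t + n := by linarith
  have h1 : (n : ℝ) < 1 := by linarith
  have h2 : (-1 : ℝ) < n := by linarith
  have h3 : n < 1 := by exact_mod_cast h1
  have h4 : -1 < n := by exact_mod_cast h2
  have h5 : n = 0 := by omega
  rw [e, h5]
  simp

/-- the five cases -/
def TC (δ1 δ2 ε : ℝ) (q1 q2 : ℕ) (v : Fin 3) (i i' : ℕ) (s' : ℝ) : Prop :=
  (v = 0 ∧ i = i' ∧ ε ≤ s' ∧ s' < δ2 - ε) ∨ (v = 1 ∧ i = i' ∧ -δ1 + ε ≤ s' ∧ s' < -ε) ∨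
    (v = 2 ∧ i = i' ∧ -ε ≤ s' ∧ s' < ε) ∨ (v = 2 ∧ i = i' + q1 ∧ -δ1 ≤ s' ∧ s' < -δ1 + ε) ∨
    (v = 2 ∧ i = i' + q2 ∧ δ2 - ε ≤ s' ∧ s' < δ2)

theorem twr_norm (θ δ1 δ2 ε : ℝ) (q1 q2 : ℕ) (hR : Rot θ δ1 δ2 q1 q2) (he : 0 < ε) (h1 : 2 * ε < δ1) (h2 : 2 * ε < δ2)
    (x : X0) (v : Fin 3) (i : ℕ) (s : ℝ) (hi : i < rb q1 q2 v) (hs : s ∈ bs δ1 δ2 ε v) (hx : TL θ x i s) :
    ∃ (i' : ℕ) (s' : ℝ), TL θ x i' s' ∧ -δ1 ≤ s' ∧ s' < δ2 ∧ (0 ≤ s' → i' < q1) ∧ (s' < 0 → i' < q2) ∧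
      TC δ1 δ2 ε q1 q2 v i i' s' := by
  have p1 := hR.pos1
  have p2 := hR.pos2
  fin_cases v
  · change i < q1 at hi
    obtain ⟨a1, a2⟩ : ε ≤ s ∧ s < δ2 - ε := hs
    exact ⟨i, s, hx, by linarith, by linarith, fun _ => hi, fun h => by linarith, Or.inl ⟨rfl, rfl, a1, a2⟩⟩
  · change i < q2 at hi
    obtain ⟨a1, a2⟩ : -δ1 + ε ≤ s ∧ s < -ε := hs
    exact ⟨i, s, hx, by linarith, by linarith, fun h => by linarith, fun _ => hi, Or.inr (Or.inl ⟨rfl, rfl, a1, a2⟩)⟩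
  · change i < q1 + q2 at hi
    obtain ⟨a1, a2⟩ : -ε ≤ s ∧ s < ε := hs
    rcases le_or_gt 0 s with h0 | h0
    · rcases lt_or_ge i q1 with hq | hq
      · exact ⟨i, s, hx, by linarith, by linarith, fun _ => hq, fun h => by linarith,
          Or.inr (Or.inr (Or.inl ⟨rfl, rfl, a1, a2⟩))⟩
      · obtain ⟨k, rfl⟩ := Nat.exists_eq_add_of_le' hq
        rw [twr_shift θ (-δ1) q1 hR.e1] at hx
        exact ⟨k, s + -δ1, hx, by linarith, by linarith, fun h => by linarith, fun _ => by omega,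
          Or.inr (Or.inr (Or.inr (Or.inl ⟨rfl, rfl, by linarith, by linarith⟩)))⟩
    · rcases lt_or_ge i q2 with hq | hq
      · exact ⟨i, s, hx, by linarith, by linarith, fun h => by linarith, fun _ => hq,
          Or.inr (Or.inr (Or.inl ⟨rfl, rfl, a1, a2⟩))⟩
      · obtain ⟨k, rfl⟩ := Nat.exists_eq_add_of_le' hq
        rw [twr_shift θ δ2 q2 hR.e2] at hx
        exact ⟨k, s + δ2, hx, by linarith, by linarith, fun _ => by omega, fun h => by linarith,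
          Or.inr (Or.inr (Or.inr (Or.inr ⟨rfl, rfl, by linarith, by linarith⟩)))⟩

theorem twr_disj (θ δ1 δ2 ε : ℝ) (q1 q2 : ℕ) (hR : Rot θ δ1 δ2 q1 q2) (he : 0 < ε) (h1 : 2 * ε < δ1) (h2 : 2 * ε < δ2)
    (x : X0) (v w : Fin 3) (i k : ℕ) (s t : ℝ) (hi : i < rb q1 q2 v) (hk : k < rb q1 q2 w) (hs : s ∈ bs δ1 δ2 ε v)
    (ht : t ∈ bs δ1 δ2 ε w) (hx : TL θ x i s) (hy : TL θ x k t) : v = w ∧ i = k := by
  obtain ⟨i', s', b1, b2, b3, b4, b5, b6⟩ := twr_norm θ δ1 δ2 ε q1 q2 hR he h1 h2 x v i s hi hs hx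
  obtain ⟨k', t', c1, c2, c3, c4, c5, c6⟩ := twr_norm θ δ1 δ2 ε q1 q2 hR he h1 h2 x w k t hk ht hy
  have e : i' = k' := by
    rcases lt_trichotomy i' k' with h | h | h
    · exact (twr_inj θ δ1 δ2 q1 q2 hR x i' k' s' t' b1 c1 b2 b3 c2 c3 c4 c5 h).elim
    · exact h
    · exact (twr_inj θ δ1 δ2 q1 q2 hR x k' i' t' s' c1 b1 c2 c3 b2 b3 b4 b5 h).elim
  subst e
  have e2 : s' = t' := twr_eq θ δ1 δ2 hR.lt x i' s' t' b1 c1 b2 b3 c2 c3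
  subst e2
  unfold TC at b6 c6
  rcases b6 with ⟨rfl, rfl, d1, d2⟩ | ⟨rfl, rfl, d1, d2⟩ | ⟨rfl, rfl, d1, d2⟩ | ⟨rfl, rfl, d1, d2⟩ | ⟨rfl, rfl, d1, d2⟩ <;>
  rcases c6 with ⟨rfl, rfl, d3, d4⟩ | ⟨rfl, rfl, d3, d4⟩ | ⟨rfl, rfl, d3, d4⟩ | ⟨rfl, rfl, d3, d4⟩ | ⟨rfl, rfl, d3, d4⟩ <;>
  first
    | exact ⟨rfl, rfl⟩
    | (exfalso; linarith)

theorem twr_q_pos (θ d : ℝ) (q : ℕ) (hq : ∃ n : ℤ, (q : ℝ) * θ = d + n) (h0 : d ≠ 0) (h1 : -1 < d) (h2 : d < 1) : 0 < q := by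
  rcases Nat.eq_zero_or_pos q with h | h
  · exfalso
    obtain ⟨n, hn⟩ := hq
    rw [h] at hn
    simp only [Nat.cast_zero, zero_mul] at hn
    have e : (n : ℝ) = -d := by linarith
    have h3 : (n : ℝ) < 1 := by linarith
    have h4 : (-1 : ℝ) < n := by linarith
    have h5 : n < 1 := by exact_mod_cast h3
    have h6 : -1 < n := by exact_mod_cast h4
    have h7 : n = 0 := by omega
    rw [h7] at e
    simp only [Int.cast_zero] at e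
    exact h0 (by linarith)
  · exact h

theorem hTWR : StTwr := by
  intro hSyn hMnm θ δ1 δ2 ε q1 q2 hθ hR he h1 h2
  have p1 := hR.pos1
  have p2 := hR.pos2
  have pl := hR.lt
  suffices hH : (∀ (v w : Fin 3) (i k : ℕ), i < rb q1 q2 v → k < rb q1 q2 w → ∀ x : X0,
      (hD (rot θ) ^ (-(i : ℤ)) : Dx X0 ≃ₜ Dx X0) x ∈ Yb δ1 δ2 ε v →
      (hD (rot θ) ^ (-(k : ℤ)) : Dx X0 ≃ₜ Dx X0) x ∈ Yb δ1 δ2 ε w → v = w ∧ i = k) ∧
      (∀ x : X0, ∃ v, ∃ i : ℕ, i < rb q1 q2 v ∧ (hD (rot θ) ^ (-(i : ℤ)) : Dx X0 ≃ₜ Dx X0) x ∈ Yb δ1 δ2 ε v) from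
    ⟨fun v => isClopen_discrete _, fun v w i k hi hk x => hH.1 v w i k hi hk x, fun x => hH.2 x⟩
  refine ⟨?_, ?_⟩
  · intro v w i k hi hk x hx hy
    rw [twr_mem] at hx hy
    obtain ⟨s, hs, hs'⟩ := twr_to θ δ1 i x
    obtain ⟨t, ht, ht'⟩ := twr_to θ δ1 k x
    rw [hs] at hx
    rw [ht] at hy
    exact twr_disj θ δ1 δ2 ε q1 q2 hR he h1 h2 x v w i k s t hi hk hx hy hs' ht'
  · intro x
    -- existence of a return
    have hopen : IsOpen (((↑) : ℝ → X0) '' Set.Ioo (-δ1) δ2) :=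
      QuotientAddGroup.isOpenMap_coe _ isOpen_Ioo
    have hne : (((↑) : ℝ → X0) '' Set.Ioo (-δ1) δ2).Nonempty :=
      ⟨_, 0, ⟨by linarith, by linarith⟩, rfl⟩
    have : Fact ((0 : ℝ) < 1) := ⟨one_pos⟩
    obtain ⟨G, hG⟩ := hSyn X0 (rot θ) (hMnm θ hθ) _ hopen hne
    obtain ⟨-, i0, -, hi0⟩ := hG x
    have hex : ∃ i : ℕ, ∃ s : ℝ, TL θ x i s ∧ -δ1 ≤ s ∧ s < δ2 := by
      rw [rot_zpow] at hi0
      obtain ⟨s, ⟨hs1, hs2⟩, hs⟩ := hi0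
      refine ⟨i0, s, ?_, hs1.le, hs2⟩
      unfold TL
      rw [AddCircle.coe_add, hs, add_assoc, ← AddCircle.coe_add]
      have : (((-(i0 : ℤ) : ℤ) : ℝ) * θ + (i0 : ℝ) * θ) = 0 := by
        push_cast
        ring
      rw [this]
      simp
    classical
    set i := Nat.find hex with hidef
    obtain ⟨s, hs, hs1, hs2⟩ := Nat.find_spec hex
    rw [← hidef] at hs
    have hmin : ∀ j : ℕ, j < i → ∀ t : ℝ, TL θ x j t → -δ1 ≤ t → t < δ2 → False := by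
      intro j hj t ht ht1 ht2
      exact Nat.find_min hex hj ⟨t, ht, ht1, ht2⟩
    have hq1 : 0 < q1 := twr_q_pos θ (-δ1) q1 hR.e1 (by linarith) (by linarith) (by linarith)
    have hq2 : 0 < q2 := twr_q_pos θ δ2 q2 hR.e2 (by linarith) (by linarith) (by linarith)
    have hf : ∀ (v : Fin 3) (l : ℕ) (t : ℝ), l < rb q1 q2 v → t ∈ bs δ1 δ2 ε v → -δ1 ≤ t → t < 1 - δ1 → TL θ x l t →
        ∃ v, ∃ i : ℕ, i < rb q1 q2 v ∧ (hD (rot θ) ^ (-(i : ℤ)) : Dx X0 ≃ₜ Dx X0) x ∈ Yb δ1 δ2 ε v := by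
      intro v l t hl ht ht1 ht2 hx
      refine ⟨v, l, hl, ?_⟩
      rw [twr_mem, twr_of θ δ1 t l x ht1 ht2 hx]
      exact ht
    rcases le_or_gt 0 s with h0 | h0
    · have hi : i < q1 := by
        by_contra hc
        obtain ⟨k, hk⟩ := Nat.exists_eq_add_of_le' (not_lt.1 hc)
        rw [hk, twr_shift θ (-δ1) q1 hR.e1] at hs
        exact hmin k (by omega) _ hs (by linarith) (by linarith)
      rcases lt_or_ge s ε with h3 | h3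
      · exact hf 2 i s (by change i < q1 + q2; omega) ⟨by linarith, h3⟩ hs1 (by linarith) hs
      · rcases lt_or_ge s (δ2 - ε) with h4 | h4
        · exact hf 0 i s hi ⟨h3, h4⟩ hs1 (by linarith) hs
        · refine hf 2 (i + q2) (s - δ2) (by change i + q2 < q1 + q2; omega)
            ⟨by linarith, by linarith⟩ (by linarith) (by linarith) ?_
          rw [twr_shift θ δ2 q2 hR.e2, sub_add_cancel]
          exact hs
    · have hi : i < q2 := by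
        by_contra hc
        obtain ⟨k, hk⟩ := Nat.exists_eq_add_of_le' (not_lt.1 hc)
        rw [hk, twr_shift θ δ2 q2 hR.e2] at hs
        exact hmin k (by omega) _ hs (by linarith) (by linarith)
      rcases lt_or_ge s (-ε) with h3 | h3
      · rcases lt_or_ge s (-δ1 + ε) with h4 | h4
        · refine hf 2 (i + q1) (s + δ1) (by change i + q1 < q1 + q2; omega)
            ⟨by linarith, by linarith⟩ (by linarith) (by linarith) ?_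
          rw [twr_shift θ (-δ1) q1 hR.e1, add_neg_cancel_right]
          exact hs
        · exact hf 1 i s hi ⟨h4, h3⟩ hs1 (by linarith) hs
      · exact hf 2 i s (by change i < q1 + q2; omega) ⟨h3, by linarith⟩ hs1 (by linarith) hs

end Pool.Agent.Helper3.KR
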